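import Pool.Agent.H10.GM.Targets2

/-!
# Recolouring (row NLR of gm_modules)
-/

set_option autoImplicit false

namespace Pool.Agent.H88.GM

open Pool.Agent.H55.GW Pool.Agent.H10.GM Pool.Agent.H8.VR Pool.Agent.H8.MC

theorem pf_NLR : T_NLR := by
  intro V k m R X c c' F h hc
  cases h with
  | pt a => exact NLC.pt a c'
  | op X Y c c₁ c₂ h₁ h₂ hd l r f g hR hX hY =>
    exact NLC.op X Y c' c₁ c₂ h₁ h₂ hd l r (F ∘ f) (F ∘ g) hR
      (fun a ha => by rw [hc a (Or.inl ha), hX a ha]; rfl)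
      (fun b hb => by rw [hc b (Or.inr hb), hY b hb]; rfl)

end Pool.Agent.H88.GM
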